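import Mathlib
import Pool.Agent.Q90.SF.Stm

/-! Fourier coefficients (project SF of helper90). -/

set_option autoImplicit false

namespace Pool.Agent.Q175.SF

open MeasureTheory Metric Set Q90.SF Real

theorem fou : S_fou := by
  classical
  intro g hg hper hz
  have hT : Fact (0 < 2 * π) := ⟨by positivity⟩
  have hper' : Function.Periodic (fun x => (g x : ℂ)) (2 * π) := fun x => by
    simp only [hper x]
  have hcont : Continuous (fun x => (g x : ℂ)) := Complex.continuous_ofReal.comp hg
  let f : C(AddCircle (2 * π), ℂ) := ⟨hper'.lift, by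
    refine continuous_coinduced_dom.2 ?_
    exact hcont⟩
  have hf : ∀ x : ℝ, f (x : AddCircle (2 * π)) = (g x : ℂ) := fun x => hper'.lift_coe x
  have hcoef : ∀ n : ℤ, fourierCoeff f n =
      ((1 / (2 * π) : ℝ) : ℂ) * ∫ x in (-π)..π, (g x : ℂ) * Complex.exp (-(n * x : ℝ) * Complex.I) := by
    intro n
    rw [fourierCoeff_eq_intervalIntegral f n (-π), Complex.real_smul]
    have : -π + 2 * π = π := by ring
    rw [this]
    congr 1
    refine intervalIntegral.integral_congr fun x _ => ?_
    simp only [hf, smul_eq_mul]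
    rw [fourier_coe_apply, mul_comm]
    congr 2
    have hpi : (π : ℂ) ≠ 0 := by exact_mod_cast pi_ne_zero
    push_cast
    field_simp
  have hpos : ∀ m : ℕ, 2 ≤ m → fourierCoeff f (m : ℤ) = 0 := by
    intro m hm
    rw [hcoef]
    have := hz m hm
    simp only [Int.cast_natCast]
    rw [this, mul_zero]
  have hneg : ∀ m : ℕ, 2 ≤ m → fourierCoeff f (-(m : ℤ)) = 0 := by
    intro m hm
    rw [hcoef]
    have hle : -π ≤ π := by linarith [pi_pos]
    have h1 := congrArg (starRingEnd ℂ) (hz m hm)
    rw [intervalIntegral.integral_of_le hle, ← integral_conj, map_zero,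
      ← intervalIntegral.integral_of_le hle] at h1
    have h2 : (∫ x in (-π)..π, (g x : ℂ) * Complex.exp (-(((-(m : ℤ) : ℤ) : ℝ) * x : ℝ) * Complex.I)) =
        ∫ x in (-π)..π, (starRingEnd ℂ) ((g x : ℂ) * Complex.exp (-(m * x : ℝ) * Complex.I)) := by
      refine intervalIntegral.integral_congr fun x _ => ?_
      rw [map_mul, Complex.conj_ofReal, ← Complex.exp_conj]
      congr 2
      simp
    rw [h2, h1, mul_zero]
  have hsupp : ∀ n : ℤ, n ∉ ({-1, 0, 1} : Finset ℤ) → fourierCoeff f n = 0 := by
    intro n hn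
    simp only [Finset.mem_insert, Finset.mem_singleton, not_or] at hn
    rcases Int.eq_nat_or_neg n with ⟨m, rfl | rfl⟩
    · exact hpos m (by omega)
    · exact hneg m (by omega)
  have hsum : Summable (fourierCoeff f) := summable_of_ne_finset_zero hsupp
  have hpt : ∀ x : ℝ, (g x : ℂ) = ∑ n ∈ ({-1, 0, 1} : Finset ℤ),
      fourierCoeff f n • fourier n (x : AddCircle (2 * π)) := by
    intro x
    have h1 := has_pointwise_sum_fourier_series_of_summable hsum (x : AddCircle (2 * π))
    have h2 : HasSum (fun n => fourierCoeff f n • fourier n (x : AddCircle (2 * π)))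
        (∑ n ∈ ({-1, 0, 1} : Finset ℤ), fourierCoeff f n • fourier n (x : AddCircle (2 * π))) :=
      hasSum_sum_of_ne_finset_zero (fun n hn => by rw [hsupp n hn, zero_smul])
    rw [← hf x]
    exact h1.unique h2
  refine ⟨(fourierCoeff f 0).re, (fourierCoeff f 1).re + (fourierCoeff f (-1)).re,
    (fourierCoeff f (-1)).im - (fourierCoeff f 1).im, fun θ => ?_⟩
  have h1 := congrArg Complex.re (hpt θ)
  have hpi : (π : ℂ) ≠ 0 := by exact_mod_cast pi_ne_zero
  have e1 : fourier 1 (θ : AddCircle (2 * π)) = Complex.exp ((θ : ℂ) * Complex.I) := by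
    rw [fourier_coe_apply]
    congr 1
    push_cast
    field_simp
  have e2 : fourier (-1) (θ : AddCircle (2 * π)) = Complex.exp (((-θ : ℝ) : ℂ) * Complex.I) := by
    rw [fourier_coe_apply]
    congr 1
    push_cast
    field_simp
  have e0 : fourier 0 (θ : AddCircle (2 * π)) = 1 := fourier_zero
  rw [Finset.sum_insert (by decide), Finset.sum_insert (by decide), Finset.sum_singleton, e0, e1,
    e2] at h1
  simp only [Complex.ofReal_re, smul_eq_mul, Complex.add_re, Complex.mul_re,
    Complex.exp_ofReal_mul_I_re, Complex.exp_ofReal_mul_I_im, Real.cos_neg, Real.sin_neg,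
    Complex.one_re, Complex.one_im] at h1
  rw [h1]
  ring

end Pool.Agent.Q175.SF
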