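import Mathlib
import Pool.Agent.Q90.SF.Stm
import Pool.Agent.TH298.Sch.Avg

/-! The potential of a domain on which (S) is solvable (project SF of helper90). -/

set_option autoImplicit false

namespace Pool.Agent.Q175.SF

open MeasureTheory Metric Set Q90.SF

theorem exp_split (s : ℝ) : Complex.exp ((s : ℂ) * Complex.I) =
    ((Real.cos s : ℝ) : ℂ) + ((Real.sin s : ℝ) : ℂ) * Complex.I := by
  rw [Complex.exp_mul_I, Complex.ofReal_cos, Complex.ofReal_sin]

theorem int_exp {Ω : Set ℂ} {w : ℂ → ℝ} (hw : IntegrableOn w Ω) (ξ : ℂ) :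
    ∫ x in Ω, Complex.exp (((inner ℝ ξ x : ℝ) : ℂ) * Complex.I) * (w x : ℂ) =
      ((∫ x in Ω, w x * Real.cos (inner ℝ ξ x) : ℝ) : ℂ) +
      ((∫ x in Ω, w x * Real.sin (inner ℝ ξ x) : ℝ) : ℂ) * Complex.I := by
  have hc : IntegrableOn (fun x => w x * Real.cos (inner ℝ ξ x)) Ω := by
    refine Integrable.mul_bdd (c := 1) hw (by fun_prop) ?_
    exact Filter.Eventually.of_forall fun x => by simpa using Real.abs_cos_le_one _
  have hs : IntegrableOn (fun x => w x * Real.sin (inner ℝ ξ x)) Ω := by
    refine Integrable.mul_bdd (c := 1) hw (by fun_prop) ?_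
    exact Filter.Eventually.of_forall fun x => by simpa using Real.abs_sin_le_one _
  have e : ∀ x : ℂ, Complex.exp (((inner ℝ ξ x : ℝ) : ℂ) * Complex.I) * (w x : ℂ) =
      ((w x * Real.cos (inner ℝ ξ x) : ℝ) : ℂ) +
        ((w x * Real.sin (inner ℝ ξ x) : ℝ) : ℂ) * Complex.I := by
    intro x
    rw [exp_split]
    push_cast
    ring
  rw [integral_congr_ae (Filter.Eventually.of_forall e)]
  rw [integral_add (Integrable.ofReal hc) ((Integrable.ofReal hs).mul_const _), integral_mul_const,
    integral_complex_ofReal, integral_complex_ofReal]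

theorem pot : S_pot := by
  classical
  intro Ω lam hb hm hlam hsol
  obtain ⟨c, u, G, hu, hG, h1, h2, hne⟩ := hsol
  have hS : Pool.Agent.TH298.Sch.Sol Ω lam c u G := ⟨hu, hG, h1, h2⟩
  have hc := hS.c_ne hb hm hlam hne
  have : IsFiniteMeasure (volume.restrict Ω) := Pool.Agent.TH298.Sch.Sol.fin hb
  have hui : IntegrableOn u Ω := hS.ui hb
  have hmem : MemLp (fun x => (lam * c)⁻¹ * (c - u x)) 2 (volume.restrict Ω) :=
    ((memLp_const c).sub hu).const_mul _
  have hint : IntegrableOn (fun x => (lam * c)⁻¹ * (c - u x)) Ω := hmem.integrable (by norm_num)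
  refine ⟨Ω.indicator (fun x => (lam * c)⁻¹ * (c - u x)), ?_, ?_, ?_, ?_⟩
  · exact (integrable_indicator_iff hm).2 hint
  · exact (memLp_indicator_iff_restrict hm).2 hmem
  · intro x hx
    exact indicator_of_notMem hx _
  · intro ξ
    have e1 : ∫ x, Complex.exp (((inner ℝ ξ x : ℝ) : ℂ) * Complex.I) *
        ((Ω.indicator (fun x => (lam * c)⁻¹ * (c - u x)) x : ℝ) : ℂ) =
        ∫ x in Ω, Complex.exp (((inner ℝ ξ x : ℝ) : ℂ) * Complex.I) *
        (((lam * c)⁻¹ * (c - u x) : ℝ) : ℂ) := by
      rw [← integral_indicator hm]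
      refine integral_congr_ae (Filter.Eventually.of_forall fun x => ?_)
      by_cases hx : x ∈ Ω
      · simp only [indicator_of_mem hx]
      · simp only [indicator_of_notMem hx, Complex.ofReal_zero, mul_zero]
    have e2 : ft Ω ξ = ∫ x in Ω, Complex.exp (((inner ℝ ξ x : ℝ) : ℂ) * Complex.I) *
        (((fun _ : ℂ => (1 : ℝ)) x : ℝ) : ℂ) := by
      unfold ft
      simp
    have hone : IntegrableOn (fun _ : ℂ => (1 : ℝ)) Ω := integrable_const _
    rw [e1, int_exp hint, e2, int_exp hone]
    obtain ⟨a, b⟩ := Pool.Agent.W632.Schiffer.star hb hm hui h1 h2 ξ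
    have hcosi : IntegrableOn (fun x : ℂ => Real.cos (inner ℝ ξ x)) Ω := by
      have hcc : Continuous (fun x : ℂ => Real.cos (inner ℝ ξ x)) := by fun_prop
      have := Integrable.mul_bdd (c := 1) hone hcc.aestronglyMeasurable
        (Filter.Eventually.of_forall fun x => by simpa using Real.abs_cos_le_one _)
      simpa [IntegrableOn] using this
    have hsini : IntegrableOn (fun x : ℂ => Real.sin (inner ℝ ξ x)) Ω := by
      have hcc : Continuous (fun x : ℂ => Real.sin (inner ℝ ξ x)) := by fun_prop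
      have := Integrable.mul_bdd (c := 1) hone hcc.aestronglyMeasurable
        (Filter.Eventually.of_forall fun x => by simpa using Real.abs_sin_le_one _)
      simpa [IntegrableOn] using this
    have huc : IntegrableOn (fun x => u x * Real.cos (inner ℝ ξ x)) Ω := by
      refine Integrable.mul_bdd (c := 1) hui (by fun_prop) ?_
      exact Filter.Eventually.of_forall fun x => by simpa using Real.abs_cos_le_one _
    have hus : IntegrableOn (fun x => u x * Real.sin (inner ℝ ξ x)) Ω := by
      refine Integrable.mul_bdd (c := 1) hui (by fun_prop) ?_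
      exact Filter.Eventually.of_forall fun x => by simpa using Real.abs_sin_le_one _
    have i1 : ∫ x in Ω, (lam * c)⁻¹ * (c - u x) * Real.cos (inner ℝ ξ x) =
        (lam * c)⁻¹ * (c * (∫ x in Ω, Real.cos (inner ℝ ξ x)) -
          ∫ x in Ω, u x * Real.cos (inner ℝ ξ x)) := by
      rw [← integral_const_mul, ← integral_sub (hcosi.const_mul _) huc, ← integral_const_mul]
      refine integral_congr_ae (Filter.Eventually.of_forall fun x => ?_)
      simp only
      ring
    have i2 : ∫ x in Ω, (lam * c)⁻¹ * (c - u x) * Real.sin (inner ℝ ξ x) =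
        (lam * c)⁻¹ * (c * (∫ x in Ω, Real.sin (inner ℝ ξ x)) -
          ∫ x in Ω, u x * Real.sin (inner ℝ ξ x)) := by
      rw [← integral_const_mul, ← integral_sub (hsini.const_mul _) hus, ← integral_const_mul]
      refine integral_congr_ae (Filter.Eventually.of_forall fun x => ?_)
      simp only
      ring
    rw [i1, i2]
    simp only [one_mul]
    set C0 := ∫ x in Ω, Real.cos (inner ℝ ξ x)
    set S0 := ∫ x in Ω, Real.sin (inner ℝ ξ x)
    set C1 := ∫ x in Ω, u x * Real.cos (inner ℝ ξ x)
    set S1 := ∫ x in Ω, u x * Real.sin (inner ℝ ξ x)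
    have r1 : (lam - ‖ξ‖ ^ 2) * ((lam * c)⁻¹ * (c * C0 - C1)) = C0 := by
      field_simp
      linear_combination a
    have r2 : (lam - ‖ξ‖ ^ 2) * ((lam * c)⁻¹ * (c * S0 - S1)) = S0 := by
      field_simp
      linear_combination b
    have r1' := congrArg (fun t : ℝ => (t : ℂ)) r1
    have r2' := congrArg (fun t : ℝ => (t : ℂ)) r2
    push_cast at r1' r2' ⊢
    linear_combination r1' + r2' * Complex.I

end Pool.Agent.Q175.SF
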