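import Mathlib
import Pool.Agent.Q90.SF.Stm
import Pool.Agent.Q175.SF.Pot

/-! A zero circle of the Fourier transform makes the Pompeiu property fail
(project SF of helper90). -/

set_option autoImplicit false

namespace Pool.Agent.Q175.SF

open MeasureTheory Metric Set Q90.SF

theorem pom : S_pom := by
  classical
  intro Ω k hm hb hk hz hP
  have : IsFiniteMeasure (volume.restrict Ω) := ⟨by
    rw [Measure.restrict_apply_univ]; exact hb.measure_lt_top⟩
  have hone : IntegrableOn (fun _ : ℂ => (1 : ℝ)) Ω := integrable_const _
  have hφ := hP (fun x => Real.cos (k * x.re)) (by fun_prop) (by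
    intro σ
    let L : ℂ ≃ₗᵢ[ℝ] ℂ := σ.toRealAffineIsometryEquiv.linearIsometryEquiv
    have hσ : ∀ x, σ x = L x + σ 0 := by
      intro x
      have := σ.toRealAffineIsometryEquiv.map_vadd 0 x
      simpa [L] using this
    have hmp : MeasurePreserving (σ : ℂ → ℂ) volume volume := by
      have h1 := (measurePreserving_add_right (volume : Measure ℂ) (σ 0)).comp L.measurePreserving
      have h2 : (fun x : ℂ => x + σ 0) ∘ L = (σ : ℂ → ℂ) := by
        funext x
        simp [hσ x]
      rwa [h2] at h1
    have hme : MeasurableEmbedding (σ : ℂ → ℂ) := σ.toHomeomorph.measurableEmbedding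
    rw [hmp.setIntegral_image_emb hme]
    set ξ : ℂ := L.symm (k : ℂ) with hξ
    have hn : ‖ξ‖ = k := by
      rw [hξ, LinearIsometryEquiv.norm_map, Complex.norm_real, Real.norm_of_nonneg hk.le]
    have h3 := hz ξ hn
    have h4 : ft Ω ξ = ∫ x in Ω, Complex.exp (((inner ℝ ξ x : ℝ) : ℂ) * Complex.I) *
        (((fun _ : ℂ => (1 : ℝ)) x : ℝ) : ℂ) := by
      unfold ft
      simp
    rw [h4, int_exp hone] at h3
    simp only [one_mul] at h3
    have h5 : (∫ x in Ω, Real.cos (inner ℝ ξ x)) = 0 := by
      have := congrArg Complex.re h3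
      simpa using this
    have h6 : (∫ x in Ω, Real.sin (inner ℝ ξ x)) = 0 := by
      have := congrArg Complex.im h3
      simpa using this
    have hcosi : IntegrableOn (fun x : ℂ => Real.cos (inner ℝ ξ x)) Ω := by
      have hcc : Continuous (fun x : ℂ => Real.cos (inner ℝ ξ x)) := by fun_prop
      have := Integrable.mul_bdd (c := 1) hone hcc.aestronglyMeasurable
        (Filter.Eventually.of_forall fun x => by simpa using Real.abs_cos_le_one _)
      simpa [IntegrableOn] using this
    have hsini : IntegrableOn (fun x : ℂ => Real.sin (inner ℝ ξ x)) Ω := by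
      have hcc : Continuous (fun x : ℂ => Real.sin (inner ℝ ξ x)) := by fun_prop
      have := Integrable.mul_bdd (c := 1) hone hcc.aestronglyMeasurable
        (Filter.Eventually.of_forall fun x => by simpa using Real.abs_sin_le_one _)
      simpa [IntegrableOn] using this
    have e : ∀ x : ℂ, Real.cos (k * (σ x).re) =
        Real.cos (k * (σ 0).re) * Real.cos (inner ℝ ξ x) -
        Real.sin (k * (σ 0).re) * Real.sin (inner ℝ ξ x) := by
      intro x
      have h7 : (inner ℝ ξ x : ℝ) = k * (L x).re := by
        rw [hξ]
        have h8 : (inner ℝ (L.symm (k : ℂ)) x : ℝ) = inner ℝ (k : ℂ) (L x) := by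
          rw [← L.inner_map_map, L.apply_symm_apply]
        rw [h8, Complex.inner]
        simp [mul_comm]
      rw [hσ x, Complex.add_re, mul_add, Real.cos_add, h7]
      ring
    rw [integral_congr_ae (Filter.Eventually.of_forall e),
      integral_sub (hcosi.const_mul _) (hsini.const_mul _), integral_const_mul,
      integral_const_mul, h5, h6]
    ring)
  have := congrFun hφ 0
  simp at this

end Pool.Agent.Q175.SF
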