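import Mathlib
import Pool.Agent.Q90.SF.Stm

/-! Dilations (project SF of helper90). -/

set_option autoImplicit false

namespace Pool.Agent.Q175.SF

open MeasureTheory Metric Set Q90.SF

theorem int_scl {F : Type*} [NormedAddCommGroup F] [NormedSpace ℝ F] {ρ : ℝ} (hρ : 0 < ρ)
    (f : ℂ → F) : ∫ x : ℂ, f (ρ⁻¹ • x) = ρ ^ 2 • ∫ x : ℂ, f x := by
  rw [Measure.integral_comp_inv_smul volume f ρ, Complex.finrank_real_complex, abs_of_pos (by positivity)]

theorem scl_all : S_scl := by
  classical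
  intro ρ lam D hρ hD
  have hms : MeasurableSet (scl ρ D) := (measurable_const_smul ρ⁻¹) hD
  have hft : ∀ ξ : ℂ, ft (scl ρ D) ξ = ((ρ ^ 2 : ℝ) : ℂ) * ft D (ρ • ξ) := by
    intro ξ
    unfold ft
    rw [← integral_indicator hms, ← integral_indicator hD]
    have := int_scl hρ (D.indicator fun x : ℂ =>
      Complex.exp (((inner ℝ (ρ • ξ) x : ℝ) : ℂ) * Complex.I))
    rw [← Complex.real_smul, ← this]
    refine integral_congr_ae (Filter.Eventually.of_forall fun x => ?_)
    simp only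
    have hin : (inner ℝ (ρ • ξ) (ρ⁻¹ • x) : ℝ) = inner ℝ ξ x := by
      rw [inner_smul_left, inner_smul_right]
      simp only [conj_trivial]
      rw [← mul_assoc, mul_inv_cancel₀ hρ.ne', one_mul]
    by_cases hx : x ∈ scl ρ D
    · have hx' : ρ⁻¹ • x ∈ D := hx
      rw [indicator_of_mem hx, indicator_of_mem hx', hin]
    · have hx' : ρ⁻¹ • x ∉ D := hx
      rw [indicator_of_notMem hx, indicator_of_notMem hx']
  refine ⟨hms, ?_, hft, ?_⟩
  · have h : scl ρ D = (ρ⁻¹ • ·) ⁻¹' D := rfl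
    rw [Measure.real, Measure.real, h, Measure.addHaar_preimage_smul volume (inv_ne_zero hρ.ne'),
      Complex.finrank_real_complex, ENNReal.toReal_mul, ENNReal.toReal_ofReal (abs_nonneg _),
      inv_pow, inv_inv, abs_of_pos (by positivity)]
  · intro U hU
    have hi : Integrable (fun x => ρ ^ 2 * U (ρ⁻¹ • x)) :=
      (hU.l1.comp_smul (inv_ne_zero hρ.ne')).const_mul _
    refine ⟨fun x => ρ ^ 2 * U (ρ⁻¹ • x), hi, ?_, ?_, ?_⟩
    · rw [memLp_two_iff_integrable_sq hi.aestronglyMeasurable]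
      have h2 := (memLp_two_iff_integrable_sq hU.l2.aestronglyMeasurable).1 hU.l2
      have := (h2.comp_smul (inv_ne_zero hρ.ne')).const_mul ((ρ ^ 2) ^ 2)
      refine this.congr (Filter.Eventually.of_forall fun x => ?_)
      simp only
      ring
    · intro x hx
      have hx' : ρ⁻¹ • x ∉ D := hx
      rw [hU.supp _ hx', mul_zero]
    · intro ξ
      rw [hft, ← hU.eq]
      have := int_scl hρ (fun x : ℂ =>
        Complex.exp (((inner ℝ (ρ • ξ) x : ℝ) : ℂ) * Complex.I) * (U x : ℂ))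
      have hin : ∀ x : ℂ, (inner ℝ (ρ • ξ) (ρ⁻¹ • x) : ℝ) = inner ℝ ξ x := by
        intro x
        rw [inner_smul_left, inner_smul_right]
        simp only [conj_trivial]
        rw [← mul_assoc, mul_inv_cancel₀ hρ.ne', one_mul]
      simp only [hin] at this
      have e : ∫ x : ℂ, Complex.exp (((inner ℝ ξ x : ℝ) : ℂ) * Complex.I) *
          ((ρ ^ 2 * U (ρ⁻¹ • x) : ℝ) : ℂ) =
          ((ρ ^ 2 : ℝ) : ℂ) * ∫ x : ℂ, Complex.exp (((inner ℝ ξ x : ℝ) : ℂ) * Complex.I) *
          (U (ρ⁻¹ • x) : ℂ) := by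
        rw [← integral_const_mul]
        refine integral_congr_ae (Filter.Eventually.of_forall fun x => ?_)
        simp only
        push_cast
        ring
      rw [e, this, Complex.real_smul, norm_smul, Real.norm_of_nonneg hρ.le]
      have hz : (ρ : ℂ) ≠ 0 := by exact_mod_cast hρ.ne'
      generalize (∫ x : ℂ, Complex.exp (((inner ℝ (ρ • ξ) x : ℝ) : ℂ) * Complex.I) * (U x : ℂ)) = K
      push_cast
      field_simp

end Pool.Agent.Q175.SF
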